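import Pool.Agent.V11177.EC.Six
import Pool.Agent.TH435.BF.Three

set_option autoImplicit false

/-!
Base class: identifications of cubic graphs that are bipartite up to three edges.
-/

namespace Pool.Agent.V11177.EC

open Finset H76FC

variable {V E : Type} [Fintype V] [Fintype E]

omit [Fintype V] in
open Classical in
theorem six_near (s t : E → V) {n m : ℕ} (ends : Fin m → Sym2 (Fin n)) (φ : E ≃ Fin m)
    (f : Fin n → V) (hG : MGraph 3 ends) (T : Finset (Fin m)) (hT : T.card ≤ 3) (c : Fin n → Bool)
    (hc : ∀ e, e ∉ T → ∀ u v, ends e = s(u, v) → c u ≠ c v)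
    (hst : ∀ e, s(s e, t e) = (ends (φ e)).map f) : Six s t := by
  obtain ⟨M, hM1, hM2⟩ : ∃ M : Fin 6 → Set (Fin m),
      (∀ i v, ∃! e, e ∈ M i ∧ v ∈ ends e) ∧ ∀ e, {i | e ∈ M i}.ncard = 2 :=
    Pool.Agent.TH435.BF.mcover_sides ends hG T hT c hc
  refine ⟨fun i => univ.filter (fun e => φ e ∉ M i), fun i w => ?_, fun e => ?_⟩
  · have hdeg : ∀ v : Fin n, ((univ : Finset (Fin m)).filter
        (fun e => e ∉ M i ∧ v ∈ ends e)).card = 2 := by
      intro v
      have h3 : ((univ : Finset (Fin m)).filter (fun e => v ∈ ends e)).card = 3 := by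
        have := hG.2.1 v
        rwa [Set.ncard_eq_toFinset_card', Set.toFinset_ofPred] at this
      obtain ⟨e₀, he₀, huniq⟩ := hM1 i v
      have h1 : ((univ : Finset (Fin m)).filter (fun e => e ∈ M i ∧ v ∈ ends e)).card = 1 := by
        rw [card_eq_one]
        refine ⟨e₀, ?_⟩
        ext e
        simp only [mem_filter, mem_univ, true_and, mem_singleton]
        constructor
        · intro h; exact huniq e h
        · rintro rfl; exact he₀
      have h2 := card_filter_add_card_filter_not (s := (univ : Finset (Fin m)).filter (fun e => v ∈ ends e))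
        (fun e => e ∈ M i)
      rw [filter_filter, filter_filter, h3] at h2
      have h4 : ((univ : Finset (Fin m)).filter (fun e => v ∈ ends e ∧ e ∈ M i)) =
          (univ : Finset (Fin m)).filter (fun e => e ∈ M i ∧ v ∈ ends e) :=
        filter_congr fun e _ => And.comm
      have h5 : ((univ : Finset (Fin m)).filter (fun e => v ∈ ends e ∧ e ∉ M i)) =
          (univ : Finset (Fin m)).filter (fun e => e ∉ M i ∧ v ∈ ends e) :=
        filter_congr fun e _ => And.comm
      rw [h4, h5, h1] at h2
      omega
    have hinc : ∀ e : E, ((if s e = w then 1 else 0) + (if t e = w then 1 else 0) : ℕ) =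
        ∑ v : Fin n, if f v = w ∧ v ∈ ends (φ e) then 1 else 0 := by
      intro e
      have h0 := hst e
      have hne := hG.1 (φ e)
      induction hh : ends (φ e) with
      | _ a b =>
        rw [hh] at h0 hne
        have hab : a ≠ b := by simpa using hne
        have hsum : ∑ v : Fin n, (if f v = w ∧ v ∈ s(a, b) then 1 else 0) =
            (if f a = w then 1 else 0) + (if f b = w then 1 else 0) := by
          have : ∀ v : Fin n, (if f v = w ∧ v ∈ s(a, b) then 1 else 0) =
              (if v = a then (if f a = w then 1 else 0) else 0) +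
              (if v = b then (if f b = w then 1 else 0) else 0) := by
            intro v
            simp only [Sym2.mem_iff]
            by_cases h1 : v = a
            · subst h1
              simp [hab]
            · by_cases h2 : v = b
              · subst h2
                simp [h1]
              · simp [h1, h2]
          rw [sum_congr rfl fun v _ => this v, sum_add_distrib, sum_ite_eq', sum_ite_eq']
          simp
        rw [hsum]
        rw [Sym2.map_mk, Sym2.eq_iff] at h0
        rcases h0 with ⟨h1, h2⟩ | ⟨h1, h2⟩
        · rw [h1, h2]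
        · rw [h1, h2, add_comm]
    rw [sum_congr rfl fun e _ => hinc e, sum_comm]
    refine even_sum _ fun v _ => ?_
    by_cases hv : f v = w
    · have h6 : ∑ e ∈ univ.filter (fun e => φ e ∉ M i),
          (if f v = w ∧ v ∈ ends (φ e) then 1 else 0) = 2 := by
        rw [← hdeg v, card_filter, sum_filter]
        rw [← Equiv.sum_comp φ]
        refine sum_congr rfl fun e _ => ?_
        by_cases h1 : φ e ∈ M i <;> by_cases h2 : v ∈ ends (φ e) <;> simp [h1, h2, hv]
      rw [h6]
      exact ⟨1, rfl⟩
    · rw [sum_eq_zero fun e _ => if_neg fun h => hv h.1]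
      exact ⟨0, rfl⟩
  · have h1 := hM2 (φ e)
    rw [Set.ncard_eq_toFinset_card'] at h1
    have h2 := card_filter_add_card_filter_not (s := (univ : Finset (Fin 6))) (fun i => φ e ∈ M i)
    rw [card_univ, Fintype.card_fin] at h2
    have h4 : Set.toFinset {i : Fin 6 | φ e ∈ M i} =
        (univ : Finset (Fin 6)).filter (fun i => φ e ∈ M i) := by
      ext i
      simp
    rw [h4] at h1
    have h3 : (univ.filter fun i : Fin 6 => e ∈ univ.filter (fun e => φ e ∉ M i)) =
        (univ : Finset (Fin 6)).filter (fun i => ¬ φ e ∈ M i) := by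
      ext i
      simp
    simp only [h3]
    omega

end Pool.Agent.V11177.EC
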