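import Pool.Agent.TH412.PF.Stmt
import Pool.Agent.TH412.PF.JoinC
import Pool.Agent.TH412.PF.Table
import Pool.Agent.TH412.PF.Perm
import Pool.Agent.TH412.PF.Leaf
import Pool.Agent.TH412.PF.Three
import Pool.Agent.TH412.PF.Red

/-!
Graphs of carving width at most five (the theorem of `Results/MP_aa6b05_co/CarvingWidthFive.lean`).
-/

set_option autoImplicit false

open Finset

namespace Pool.Agent.V11177.EC

open Pool.Agent.TH412.PF

theorem cw5 (V E : Type) [Fintype V] [Fintype E] (s t : E → V)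
    (hbridge : ∀ Z : Set V, (cut s t Z).card ≠ 1) (hpet : ¬ HasPetersenMinor s t)
    (hwidth : ∃ T : Tr V, T.set = Set.univ ∧ T.Nodup ∧ T.Width s t 5) :
    (∃ x y : E → ZMod 2, IsCycle s t x ∧ IsCycle s t y ∧ ∀ e, x e ≠ 0 ∨ y e ≠ 0) ∧
      ∀ (r : ℕ) (A : Matrix (Fin r) E (ZMod 2)), Represents s t A →
        ∃ B : Matrix (Fin 2) (Fin r) (ZMod 2), ∀ e, ∃ j, ∑ i, B j i * A i e ≠ 0 := by
  obtain ⟨T, hT, hN, hW⟩ := hwidth
  have htab : StmTable := fun a b m n ha hab hb hm hn hmn => table a b m n ha hab hb hm hn hmn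
  obtain ⟨f, hf⟩ := red act trans (three leaf (join act htab)) V E s t T hN hW (fun e => by
    rw [hT]; exact ⟨Set.mem_univ _, Set.mem_univ _⟩) (fun h => hpet (hasPet_imp s t h)) hbridge
  rw [hT] at hf
  exact fin_cover s t f hf

end Pool.Agent.V11177.EC
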