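import Mathlib

set_option autoImplicit false

/-!
Gluing of flows along edge cuts with at most three edges and along two vertices.
-/

namespace Pool.Agent.V11177.EC

open Finset

variable {V E X : Type}

/-- identify all vertices of `Z` with `z` -/
noncomputable def col (Z : Set V) (z v : V) : V := by
  classical exact if v ∈ Z then z else v

/-- replace the edges in `F` by one edge `e₀` from `u` to `v` and loops at `u`: new source -/
noncomputable def rs (s : E → V) (F : Set E) (u : V) (e : E) : V := by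
  classical exact if e ∈ F then u else s e

/-- replace the edges in `F` by one edge `e₀` from `u` to `v` and loops at `u`: new target -/
noncomputable def rt (t : E → V) (F : Set E) (e₀ : E) (u v : V) (e : E) : V := by
  classical exact if e = e₀ then v else if e ∈ F then u else t e

/-- the edges leaving `Z` -/
def cs (s t : E → V) (Z : Set V) : Set E := {e | ¬ (s e ∈ Z ↔ t e ∈ Z)}

theorem mem_cs {s t : E → V} {Z : Set V} {e : E} : e ∈ cs s t Z ↔ ¬ (s e ∈ Z ↔ t e ∈ Z) := Iff.rfl

/-- the number of edges leaving `Z` -/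
noncomputable def cutn (s t : E → V) (Z : Set V) : ℕ := (cs s t Z).ncard

/-- each set containing `u` but not `v` is left by an edge in `F` -/
def Joins (s t : E → V) (F : Set E) (u v : V) : Prop :=
  ∀ W : Set V, u ∈ W → v ∉ W → ∃ e ∈ F, e ∈ cs s t W

/-- the edges in `F` and the other edges have no vertices in common except `u` and `v` -/
def Sep (s t : E → V) (F : Set E) (u v : V) : Prop :=
  ∀ e ∈ F, ∀ e' ∉ F, ∀ x : V, (s e = x ∨ t e = x) → (s e' = x ∨ t e' = x) → x = u ∨ x = v

/-- the class generated by `P` by gluing along edge cuts with at most three edges and along two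
vertices -/
inductive Dec (P : (E → V) → (E → V) → Prop) : (E → V) → (E → V) → Prop
  | base (s t : E → V) : P s t → Dec P s t
  | glue (s t : E → V) (Z : Set V) (z z' : V) (hz : z ∈ Z) (hz' : z' ∉ Z)
      (hcut : cutn s t Z ≤ 3) :
      Dec P (fun e => col Z z (s e)) (fun e => col Z z (t e)) →
      Dec P (fun e => col Zᶜ z' (s e)) (fun e => col Zᶜ z' (t e)) → Dec P s t
  | sum (s t : E → V) (F : Set E) (u v : V) (e₀ e₁ : E) (he₀ : e₀ ∈ F) (he₁ : e₁ ∉ F)
      (hsep : Sep s t F u v) (hF : Joins s t F u v) (hF' : Joins s t Fᶜ u v) :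
      Dec P (rs s F u) (rt t F e₀ u v) → Dec P (rs s Fᶜ u) (rt t Fᶜ e₁ u v) → Dec P s t

/-- the tests `c i`, permuted by symmetries -/
structure Sys (X : Type) (ι : Type) where
  c : ι → X → ZMod 2
  Γ : Set (X → X)
  act : ∀ γ ∈ Γ, ∀ i, ∃ j, ∀ x, c i (γ x) = c j x
  s2 : ∀ x y, (∀ i, c i x = c i y) → x = y
  t0 : ∃ γ, γ ∈ Γ
  t2 : ∀ x y, ∃ γ ∈ Γ, γ x = y
  t3 : ∀ x y w x' y' w', (∀ i, c i x + c i y + c i w = 0) → (∀ i, c i x' + c i y' + c i w' = 0) →
    ∃ γ ∈ Γ, γ x = x' ∧ γ y = y' ∧ γ w = w'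

variable {ι : Type}

open Classical in
/-- incidences of an edge with ends `a`, `b` with the vertex `v` -/
noncomputable def inc (a b v : V) : ZMod 2 := (if a = v then 1 else 0) + (if b = v then 1 else 0)

theorem inc_self (a v : V) : inc a a v = 0 := by
  unfold inc
  have h2 : (1 : ZMod 2) + 1 = 0 := by decide
  split_ifs <;> simp [h2]

/-- `f` satisfies the tests at the vertex `v` -/
def At [Fintype E] (S : Sys X ι) (s t : E → V) (f : E → X) (v : V) : Prop :=
  ∀ i, ∑ e, S.c i (f e) * inc (s e) (t e) v = 0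

/-- `f` satisfies the tests at all vertices -/
def Flow [Fintype E] (S : Sys X ι) (s t : E → V) (f : E → X) : Prop := ∀ v, At S s t f v

theorem col_mem {Z : Set V} {z v : V} (h : v ∈ Z) : col Z z v = z := by
  unfold col; simp [h]

theorem col_not {Z : Set V} {z v : V} (h : v ∉ Z) : col Z z v = v := by
  unfold col; simp [h]

theorem rs_mem {s : E → V} {F : Set E} {u : V} {e : E} (h : e ∈ F) : rs s F u e = u := by
  unfold rs; simp [h]

theorem rs_not {s : E → V} {F : Set E} {u : V} {e : E} (h : e ∉ F) : rs s F u e = s e := by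
  unfold rs; simp [h]

theorem rt_self {t : E → V} {F : Set E} {u v : V} {e₀ : E} :
    rt t F e₀ u v e₀ = v := by
  unfold rt; simp

theorem rt_mem {t : E → V} {F : Set E} {u v : V} {e₀ e : E} (h : e ∈ F) (h1 : e ≠ e₀) :
    rt t F e₀ u v e = u := by
  unfold rt; simp [h, h1]

theorem rt_not {t : E → V} {F : Set E} {u v : V} {e₀ e : E} (he₀ : e₀ ∈ F) (h : e ∉ F) :
    rt t F e₀ u v e = t e := by
  unfold rt
  have : e ≠ e₀ := fun h1 => h (h1 ▸ he₀)
  simp [h, this]

theorem col_eq_iff {Z : Set V} {z x v : V} (hz : z ∈ Z) (hv : v ∉ Z) : col Z z x = v ↔ x = v := by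
  by_cases h : x ∈ Z
  · rw [col_mem h]
    constructor
    · rintro rfl; exact absurd hz hv
    · rintro rfl; exact absurd h hv
  · rw [col_not h]

theorem cutn_col (s t : E → V) (Z W : Set V) (z : V) :
    cutn (fun e => col Z z (s e)) (fun e => col Z z (t e)) W = cutn s t {v | col Z z v ∈ W} := rfl

theorem cs_compl (s t : E → V) (Z : Set V) : cs s t Zᶜ = cs s t Z := by
  ext e
  rw [mem_cs, mem_cs, Set.mem_compl_iff, Set.mem_compl_iff]
  tauto

section
variable [Fintype V] [Fintype E]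

open Classical in
/-- the tests hold for the sum over each cut -/
theorem cut_sum (S : Sys X ι) (s t : E → V) (f : E → X) (Z : Set V)
    (h : ∀ v ∈ Z, At S s t f v) (i : ι) :
    ∑ e ∈ univ.filter (fun e => e ∈ cs s t Z), S.c i (f e) = 0 := by
  have h1 : ∑ v ∈ univ.filter (fun v => v ∈ Z), ∑ e, S.c i (f e) * inc (s e) (t e) v = 0 := by
    refine sum_eq_zero fun v hv => ?_
    exact h v (mem_filter.mp hv).2 i
  rw [sum_comm] at h1
  rw [sum_filter]
  refine Eq.trans (sum_congr rfl fun e _ => ?_) h1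
  unfold inc
  rw [← mul_sum, sum_add_distrib, sum_ite_eq, sum_ite_eq]
  simp only [mem_filter, mem_univ, true_and]
  have h2 : (1 : ZMod 2) + 1 = 0 := by decide
  by_cases ha : s e ∈ Z <;> by_cases hb : t e ∈ Z <;> simp [ha, hb, h2, mem_cs]

open Classical in
theorem glue_flow (S : Sys X ι) (s t : E → V) (Z : Set V) (z z' : V) (hz : z ∈ Z) (hz' : z' ∉ Z)
    (hcut : cutn s t Z ≤ 3) (h1 : cutn s t Z ≠ 1)
    (f₁ f₂ : E → X) (hf₁ : Flow S (fun e => col Z z (s e)) (fun e => col Z z (t e)) f₁)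
    (hf₂ : Flow S (fun e => col Zᶜ z' (s e)) (fun e => col Zᶜ z' (t e)) f₂) :
    ∃ f, Flow S s t f := by
  set F : Finset E := univ.filter (fun e => e ∈ cs s t Z) with hF
  have hFc : F.card = cutn s t Z := by
    unfold cutn
    rw [Set.ncard_eq_toFinset_card']
    congr 1
    ext e
    simp [hF]
  -- the flows at the vertices of the uncontracted sides
  have a1 : ∀ v ∈ Zᶜ, At S s t f₁ v := by
    intro v hv i
    have := hf₁ v i
    unfold inc at this ⊢
    simp only [col_eq_iff hz hv] at this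
    exact this
  have a2 : ∀ v ∈ Z, At S s t f₂ v := by
    intro v hv i
    have := hf₂ v i
    have hv' : v ∉ Zᶜ := fun h => h hv
    unfold inc at this ⊢
    simp only [col_eq_iff (show z' ∈ Zᶜ from hz') hv'] at this
    exact this
  have b2 : ∀ i, ∑ e ∈ F, S.c i (f₂ e) = 0 := fun i => cut_sum S s t f₂ Z a2 i
  have b1 : ∀ i, ∑ e ∈ F, S.c i (f₁ e) = 0 := by
    intro i
    have := cut_sum S s t f₁ Zᶜ a1 i
    rw [cs_compl] at this
    exact this
  -- symmetry
  obtain ⟨γ, hγ, hγF⟩ : ∃ γ ∈ S.Γ, ∀ e ∈ F, γ (f₁ e) = f₂ e := by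
    have h012 : F.card = 0 ∨ F.card = 2 ∨ F.card = 3 := by omega
    have h2 : ∀ a b : ZMod 2, a + b = 0 → a = b := by decide
    rcases h012 with h | h | h
    · obtain ⟨γ, hγ⟩ := S.t0
      rw [card_eq_zero] at h
      exact ⟨γ, hγ, fun e he => by rw [h] at he; simp at he⟩
    · obtain ⟨a, b, hab, hFab⟩ := card_eq_two.mp h
      obtain ⟨γ, hγ, hγ1⟩ := S.t2 (f₁ a) (f₂ a)
      have c1 : f₁ a = f₁ b := S.s2 _ _ fun i => by
        have := b1 i
        rw [hFab, sum_pair hab] at this
        exact h2 _ _ this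
      have c2 : f₂ a = f₂ b := S.s2 _ _ fun i => by
        have := b2 i
        rw [hFab, sum_pair hab] at this
        exact h2 _ _ this
      refine ⟨γ, hγ, fun e he => ?_⟩
      rw [hFab, mem_insert, mem_singleton] at he
      rcases he with rfl | rfl
      · exact hγ1
      · rw [← c1, ← c2, hγ1]
    · obtain ⟨a, b, d, hab, had, hbd, hFab⟩ := card_eq_three.mp h
      have hs : ∀ (g : E → X), (∀ i, ∑ e ∈ F, S.c i (g e) = 0) →
          ∀ i, S.c i (g a) + S.c i (g b) + S.c i (g d) = 0 := by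
        intro g hg i
        have := hg i
        rw [hFab, sum_insert (by simp [hab, had]), sum_pair hbd] at this
        rw [add_assoc]; exact this
      obtain ⟨γ, hγ, g1, g2, g3⟩ := S.t3 _ _ _ _ _ _ (hs f₁ b1) (hs f₂ b2)
      refine ⟨γ, hγ, fun e he => ?_⟩
      rw [hFab, mem_insert, mem_insert, mem_singleton] at he
      rcases he with rfl | rfl | rfl
      · exact g1
      · exact g2
      · exact g3
  refine ⟨fun e => if s e ∈ Z ∨ t e ∈ Z then f₂ e else γ (f₁ e), fun v => ?_⟩
  by_cases hv : v ∈ Z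
  · intro i
    refine Eq.trans (sum_congr rfl fun e _ => ?_) (a2 v hv i)
    by_cases hs : s e = v
    · simp only
      rw [if_pos (Or.inl (hs ▸ hv))]
    · by_cases ht : t e = v
      · simp only
        rw [if_pos (Or.inr (ht ▸ hv))]
      · unfold inc
        simp [hs, ht]
  · intro i
    obtain ⟨j, hj⟩ := S.act γ hγ i
    refine Eq.trans (sum_congr rfl fun e _ => ?_) (a1 v hv j)
    have key : (s e = v ∨ t e = v) →
        S.c i (if s e ∈ Z ∨ t e ∈ Z then f₂ e else γ (f₁ e)) = S.c j (f₁ e) := by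
      intro hst
      split_ifs with h
      · rw [← hγF e ?_, hj]
        rw [hF, mem_filter]
        refine ⟨mem_univ _, fun hiff => ?_⟩
        rcases hst with rfl | rfl
        · rcases h with h | h
          · exact hv h
          · exact hv (hiff.mpr h)
        · rcases h with h | h
          · exact hv (hiff.mp h)
          · exact hv h
      · exact hj _
    by_cases hst : s e = v ∨ t e = v
    · simp only
      rw [key hst]
    · push Not at hst
      unfold inc
      simp [hst.1, hst.2]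

omit [Fintype V] in
open Classical in
/-- one side of a sum -/
theorem side_sum (S : Sys X ι) (s t : E → V) (F : Set E) (u v : V) (e₀ : E) (he₀ : e₀ ∈ F)
    (f : E → X) (hf : Flow S (rs s F u) (rt t F e₀ u v) f) (i : ι) (w : V) (G : Finset E)
    (hG : ∀ e, e ∈ G ↔ e ∉ F) :
    ∑ e ∈ G, S.c i (f e) * inc (s e) (t e) w = S.c i (f e₀) * inc u v w := by
  have hG' : G = univ.filter (fun e => ¬ e ∈ F) := by
    ext e; simp [hG]
  rw [hG']
  have h := hf w i
  rw [← sum_filter_add_sum_filter_not univ (fun e => e ∈ F)] at h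
  have h1 : ∑ e ∈ univ.filter (fun e => e ∈ F),
      S.c i (f e) * inc (rs s F u e) (rt t F e₀ u v e) w = S.c i (f e₀) * inc u v w := by
    rw [sum_eq_single e₀]
    · rw [rs_mem he₀, rt_self]
    · intro e he hne
      have he' : e ∈ F := (mem_filter.mp he).2
      rw [rs_mem he', rt_mem he' hne, inc_self, mul_zero]
    · intro h
      exact absurd (mem_filter.mpr ⟨mem_univ _, he₀⟩) h
  have h2 : ∑ e ∈ univ.filter (fun e => ¬ e ∈ F),
      S.c i (f e) * inc (rs s F u e) (rt t F e₀ u v e) w =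
      ∑ e ∈ univ.filter (fun e => ¬ e ∈ F), S.c i (f e) * inc (s e) (t e) w := by
    refine sum_congr rfl fun e he => ?_
    have he' : e ∉ F := (mem_filter.mp he).2
    rw [rs_not he', rt_not he₀ he']
  rw [h1, h2] at h
  have h3 : ∀ a b : ZMod 2, a + b = 0 → b = a := by decide
  exact h3 _ _ h

omit [Fintype V] in
open Classical in
theorem sum_flow (S : Sys X ι) (s t : E → V) (F : Set E) (u v : V) (e₀ e₁ : E) (he₀ : e₀ ∈ F)
    (he₁ : e₁ ∉ F) (f₁ f₂ : E → X) (hf₁ : Flow S (rs s F u) (rt t F e₀ u v) f₁)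
    (hf₂ : Flow S (rs s Fᶜ u) (rt t Fᶜ e₁ u v) f₂) :
    ∃ f, Flow S s t f := by
  obtain ⟨γ, hγ, hγ1⟩ := S.t2 (f₁ e₀) (f₂ e₁)
  refine ⟨fun e => if e ∈ F then f₂ e else γ (f₁ e), fun w i => ?_⟩
  obtain ⟨j, hj⟩ := S.act γ hγ i
  rw [← sum_filter_add_sum_filter_not univ (fun e => e ∈ F)]
  have h1 : ∑ e ∈ univ.filter (fun e => e ∈ F),
      S.c i (if e ∈ F then f₂ e else γ (f₁ e)) * inc (s e) (t e) w =
      S.c i (f₂ e₁) * inc u v w := by
    rw [← side_sum S s t Fᶜ u v e₁ he₁ f₂ hf₂ i w (univ.filter (fun e => e ∈ F))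
      (fun e => by simp)]
    refine sum_congr rfl fun e he => ?_
    rw [if_pos (mem_filter.mp he).2]
  have h2 : ∑ e ∈ univ.filter (fun e => ¬ e ∈ F),
      S.c i (if e ∈ F then f₂ e else γ (f₁ e)) * inc (s e) (t e) w =
      S.c j (f₁ e₀) * inc u v w := by
    rw [← side_sum S s t F u v e₀ he₀ f₁ hf₁ j w (univ.filter (fun e => ¬ e ∈ F))
      (fun e => by simp)]
    refine sum_congr rfl fun e he => ?_
    have he' : e ∉ F := (mem_filter.mp he).2
    rw [if_neg he', hj]
  rw [h1, h2, ← hj, hγ1]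
  have h3 : ∀ a : ZMod 2, a + a = 0 := by decide
  exact h3 _

end

/-- a sum has no bridge in its sides -/
theorem sum_cut (s t : E → V) (F : Set E) (u v : V) (e₀ : E)
    (he₀ : e₀ ∈ F) (hsep : Sep s t F u v) (hF' : Joins s t Fᶜ u v)
    (hb : ∀ Z, cutn s t Z ≠ 1) (W : Set V) : cutn (rs s F u) (rt t F e₀ u v) W ≠ 1 := by
  intro h1
  obtain ⟨e, he⟩ := Set.ncard_eq_one.mp h1
  have hm : ∀ x, x ∈ cs (rs s F u) (rt t F e₀ u v) W ↔ x = e := fun x => by rw [he]; rfl
  have hnF : ∀ x, x ∉ F → (x ∈ cs (rs s F u) (rt t F e₀ u v) W ↔ x ∈ cs s t W) := by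
    intro x hx
    rw [mem_cs, mem_cs, rs_not hx, rt_not he₀ hx]
  by_cases huv : u ∈ W ↔ v ∈ W
  · -- all edges of F are on one side
    have heF : e ∉ F := by
      intro h
      have := (hm e).mpr rfl
      rw [mem_cs, rs_mem h] at this
      by_cases hee : e = e₀
      · rw [hee, rt_self] at this; exact this huv
      · rw [rt_mem h hee] at this; exact this Iff.rfl
    -- move the vertices of F to the side of u
    obtain ⟨W', hW'⟩ : ∃ W' : Set V, ∀ x, x ∈ W' ↔ ((x ∈ W ∧ ¬ ∃ e ∈ F, s e = x ∨ t e = x) ∨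
      ((∃ e ∈ F, s e = x ∨ t e = x) ∧ u ∈ W)) := ⟨{x | _}, fun _ => Iff.rfl⟩
    apply hb W'
    apply Set.ncard_eq_one.mpr
    refine ⟨e, ?_⟩
    ext x
    rw [Set.mem_singleton_iff]
    by_cases hx : x ∈ F
    · have hne : x ≠ e := fun h => heF (h ▸ hx)
      simp only [hne, iff_false]
      rw [mem_cs, not_not]
      have p1 : ∃ e ∈ F, s e = s x ∨ t e = s x := ⟨x, hx, Or.inl rfl⟩
      have p2 : ∃ e ∈ F, s e = t x ∨ t e = t x := ⟨x, hx, Or.inr rfl⟩
      rw [hW', hW']
      simp only [p1, p2, not_true, and_false, true_and, false_or]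
    · rw [← hm x, hnF x hx]
      have key : ∀ y, (s x = y ∨ t x = y) → (y ∈ W' ↔ y ∈ W) := by
        intro y hy
        rw [hW']
        by_cases hp : ∃ e ∈ F, s e = y ∨ t e = y
        · simp only [hp, not_true, and_false, true_and, false_or]
          obtain ⟨e', he', hp'⟩ := hp
          rcases hsep e' he' x hx y hp' hy with rfl | rfl
          · exact Iff.rfl
          · exact huv
        · simp only [hp, not_false_eq_true, and_true, false_and, or_false]
      rw [mem_cs, mem_cs, key _ (Or.inl rfl), key _ (Or.inr rfl)]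
  · -- e₀ is in the cut; some edge outside F is in the cut
    have h0 : e₀ = e := by
      rw [← hm, mem_cs, rs_mem he₀, rt_self]
      exact huv
    obtain ⟨e', he', hc⟩ : ∃ e' ∈ Fᶜ, e' ∈ cs s t W := by
      by_cases hu : u ∈ W
      · have hv : v ∉ W := fun h => huv ⟨fun _ => h, fun _ => hu⟩
        exact hF' W hu hv
      · have hv : v ∈ W := by
          by_contra hv
          exact huv ⟨fun h => absurd h hu, fun h => absurd h hv⟩
        obtain ⟨e', he', hc⟩ := hF' Wᶜ hu (fun h => h hv)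
        exact ⟨e', he', by rwa [cs_compl] at hc⟩
    have := (hm e').mp ((hnF e' he').mpr hc)
    rw [← h0] at this
    exact he' (this ▸ he₀)

theorem Sep.compl {s t : E → V} {F : Set E} {u v : V} (h : Sep s t F u v) :
    Sep s t Fᶜ u v := fun e he e' he' x hx hx' =>
  h e' (by simpa using he') e he x hx' hx

/-- all graphs in the class without cuts with one edge have flows -/
theorem dec_flow [Fintype V] [Fintype E] (S : Sys X ι) (P : (E → V) → (E → V) → Prop)
    (hP : ∀ s t, P s t → (∀ Z, cutn s t Z ≠ 1) → ∃ f, Flow S s t f)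
    (s t : E → V) (h : Dec P s t) (hb : ∀ Z, cutn s t Z ≠ 1) : ∃ f, Flow S s t f := by
  induction h with
  | base s t h => exact hP s t h hb
  | glue s t Z z z' hz hz' hcut _ _ ih1 ih2 =>
    obtain ⟨f₁, hf₁⟩ := ih1 (fun W => by rw [cutn_col]; exact hb _)
    obtain ⟨f₂, hf₂⟩ := ih2 (fun W => by rw [cutn_col]; exact hb _)
    exact glue_flow S s t Z z z' hz hz' hcut (hb Z) f₁ f₂ hf₁ hf₂
  | sum s t F u v e₀ e₁ he₀ he₁ hsep hF hF' _ _ ih1 ih2 =>
    obtain ⟨f₁, hf₁⟩ := ih1 (fun W => sum_cut s t F u v e₀ he₀ hsep hF' hb W)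
    obtain ⟨f₂, hf₂⟩ := ih2 (fun W => sum_cut s t Fᶜ u v e₁ he₁ hsep.compl
      (by rw [compl_compl]; exact hF) hb W)
    exact sum_flow S s t F u v e₀ e₁ he₀ he₁ f₁ f₂ hf₁ hf₂

end Pool.Agent.V11177.EC
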