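import Pool.Agent.TH395.P5.Fin

/-!
Graphs of pathwidth at most five (the theorem of `Results/MP_e6539c_co/PathwidthFive.lean`).
-/

set_option autoImplicit false

namespace Pool.Agent.V11177.EC

theorem pw5 : Pool.Agent.TH395.P5.S_RES := Pool.Agent.TH395.P5.res

end Pool.Agent.V11177.EC
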