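import Pool.Agent.V11177.EC.Main

set_option autoImplicit false

/-!
The gluing system for six even subgraphs such that each edge is in exactly four of them.
-/

namespace Pool.Agent.V11177.EC

open Finset

/-- the 4-subsets of a 6-set -/
abbrev Q4 : Type := {A : Finset (Fin 6) // A.card = 4}

/-- membership, as an element of `ZMod 2` -/
def ci (i : Fin 6) (A : Q4) : ZMod 2 := if i ∈ A.1 then 1 else 0

theorem ofFib {K : Type} [DecidableEq K] (φ ψ : Fin 6 → K)
    (h : ∀ k, (univ.filter fun i => φ i = k).card = (univ.filter fun i => ψ i = k).card) :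
    ∃ σ : Equiv.Perm (Fin 6), ∀ i, ψ (σ i) = φ i := by
  have h1 : ∀ k, Nonempty ({a // φ a = k} ≃ {b // ψ b = k}) := by
    intro k
    rw [← Fintype.card_eq, Fintype.card_subtype, Fintype.card_subtype]
    exact h k
  refine ⟨Equiv.ofFiberEquiv (fun k => Classical.choice (h1 k)), fun i => ?_⟩
  exact Equiv.ofFiberEquiv_map _ i

theorem fib1 : ∀ A : Q4, ∀ k : Bool,
    (univ.filter fun i : Fin 6 => decide (i ∈ A.1) = k).card = if k then 4 else 2 := by
  decide +kernel

theorem fib3 : ∀ A B C : Q4, (∀ i, ci i A + ci i B + ci i C = 0) → ∀ k : Bool × Bool × Bool,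
    (univ.filter fun i : Fin 6 => (decide (i ∈ A.1), decide (i ∈ B.1), decide (i ∈ C.1)) = k).card =
    if k = (true, true, false) ∨ k = (true, false, true) ∨ k = (false, true, true) then 2
    else 0 := by
  decide +kernel

/-- the action of a permutation -/
def pa (σ : Equiv.Perm (Fin 6)) (A : Q4) : Q4 := ⟨A.1.map σ.toEmbedding, by rw [card_map]; exact A.2⟩

theorem pa_eq (σ : Equiv.Perm (Fin 6)) (A B : Q4)
    (h : ∀ i, decide (σ i ∈ B.1) = decide (i ∈ A.1)) : pa σ A = B := by
  apply Subtype.ext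
  ext j
  obtain ⟨i, rfl⟩ := σ.surjective j
  have h1 : σ i ∈ (pa σ A).1 ↔ i ∈ A.1 := by
    unfold pa
    simp
  rw [h1]
  have := h i
  rw [decide_eq_decide] at this
  exact this.symm

/-- the system -/
def six : Sys Q4 (Fin 6) where
  c := ci
  Γ := {γ | ∃ σ, ∀ A, γ A = pa σ A}
  act := by
    rintro γ ⟨σ, hσ⟩ i
    refine ⟨σ.symm i, fun A => ?_⟩
    unfold ci
    have h1 : i ∈ (γ A).1 ↔ σ.symm i ∈ A.1 := by
      rw [hσ]
      unfold pa
      simp only [mem_map_equiv]
    simp only [h1]
  s2 := by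
    intro A B h
    apply Subtype.ext
    ext i
    have := h i
    unfold ci at this
    by_cases h1 : i ∈ A.1 <;> by_cases h2 : i ∈ B.1 <;> simp_all
  t0 := ⟨fun A => A, Equiv.refl _, fun A => by
    symm; exact pa_eq _ _ _ fun i => rfl⟩
  t2 := by
    intro A B
    obtain ⟨σ, hσ⟩ := ofFib (fun i => decide (i ∈ A.1)) (fun i => decide (i ∈ B.1))
      (fun k => (fib1 A k).trans (fib1 B k).symm)
    exact ⟨pa σ, ⟨σ, fun _ => rfl⟩, pa_eq σ A B hσ⟩
  t3 := by
    intro A B C A' B' C' h h'
    obtain ⟨σ, hσ⟩ := ofFib (fun i => (decide (i ∈ A.1), decide (i ∈ B.1), decide (i ∈ C.1)))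
      (fun i => (decide (i ∈ A'.1), decide (i ∈ B'.1), decide (i ∈ C'.1)))
      (fun k => (fib3 A B C h k).trans (fib3 A' B' C' h' k).symm)
    refine ⟨pa σ, ⟨σ, fun _ => rfl⟩, pa_eq σ _ _ fun i => ?_, pa_eq σ _ _ fun i => ?_,
      pa_eq σ _ _ fun i => ?_⟩
    · exact congrArg (fun x => x.1) (hσ i)
    · exact congrArg (fun x => x.2.1) (hσ i)
    · exact congrArg (fun x => x.2.2) (hσ i)

variable {V E : Type} [Fintype V] [Fintype E]

open Classical in
/-- six even subgraphs such that each edge is in exactly four of them -/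
def Six (s t : E → V) : Prop := ∃ C : Fin 6 → Finset E,
  (∀ i v, Even (∑ e ∈ C i, ((if s e = v then 1 else 0) + (if t e = v then 1 else 0)))) ∧
    ∀ e, (univ.filter (fun i => e ∈ C i)).card = 4

open Classical in
theorem six_iff (s t : E → V) : (∃ f, Flow six s t f) ↔ Six s t := by
  have key : ∀ (f : E → Q4) (i : Fin 6) (v : V), (∑ e, six.c i (f e) * inc (s e) (t e) v = 0 ↔
      Even (∑ e ∈ univ.filter (fun e => i ∈ (f e).1),
        ((if s e = v then 1 else 0) + (if t e = v then 1 else 0)))) := by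
    intro f i v
    rw [← ZMod.natCast_eq_zero_iff_even, sum_filter]
    push_cast
    have : ∀ e, six.c i (f e) * inc (s e) (t e) v = if i ∈ (f e).1 then
        ((if s e = v then 1 else 0) + (if t e = v then 1 else 0) : ZMod 2) else 0 := by
      intro e
      show ci i (f e) * inc (s e) (t e) v = _
      unfold ci inc
      split_ifs <;> simp
    rw [sum_congr rfl fun e _ => this e]
  constructor
  · rintro ⟨f, hf⟩
    refine ⟨fun i => univ.filter (fun e => i ∈ (f e).1), fun i v => ?_, fun e => ?_⟩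
    · exact (key f i v).mp (hf v i)
    · refine Eq.trans ?_ (f e).2
      congr 1
      ext i
      simp
  · rintro ⟨C, h1, h2⟩
    refine ⟨fun e => ⟨univ.filter (fun i => e ∈ C i), h2 e⟩, fun v i => ?_⟩
    rw [key]
    have : (univ.filter fun e => i ∈ univ.filter (fun i => e ∈ C i)) = C i := by
      ext e; simp
    simp only [this]
    exact h1 i v

/-- gluing for six even subgraphs -/
theorem six_dec (P : (E → V) → (E → V) → Prop)
    (hP : ∀ s t, P s t → (∀ Z, cutn s t Z ≠ 1) → Six s t)
    (s t : E → V) (h : Dec P s t) (hb : ∀ Z, cutn s t Z ≠ 1) : Six s t :=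
  (six_iff s t).mp (dec_flow six P (fun s t h1 h2 => (six_iff s t).mpr (hP s t h1 h2)) s t h hb)

omit [Fintype V] in
open Classical in
/-- a union of two even subgraphs -/
theorem six_two (s t : E → V) (C₁ C₂ : Finset E)
    (h1 : ∀ v, Even (∑ e ∈ C₁, ((if s e = v then 1 else 0) + (if t e = v then 1 else 0))))
    (h2 : ∀ v, Even (∑ e ∈ C₂, ((if s e = v then 1 else 0) + (if t e = v then 1 else 0))))
    (hu : C₁ ∪ C₂ = univ) : Six s t := by
  have h3 : ∀ v, Even (∑ e ∈ symmDiff C₁ C₂,
      ((if s e = v then 1 else 0) + (if t e = v then 1 else 0))) := by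
    intro v
    have e1 : ∑ e ∈ symmDiff C₁ C₂, ((if s e = v then 1 else 0) + (if t e = v then 1 else 0)) +
        2 * ∑ e ∈ C₁ ∩ C₂, ((if s e = v then 1 else 0) + (if t e = v then 1 else 0)) =
        ∑ e ∈ C₁, ((if s e = v then 1 else 0) + (if t e = v then 1 else 0)) +
        ∑ e ∈ C₂, ((if s e = v then 1 else 0) + (if t e = v then 1 else 0)) := by
      rw [symmDiff_def, sup_eq_union, sum_union disjoint_sdiff_sdiff,
        ← sum_inter_add_sum_sdiff C₁ C₂, ← sum_inter_add_sum_sdiff C₂ C₁, inter_comm C₂ C₁]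
      ring
    have e2 := (h1 v).add (h2 v)
    rw [← e1] at e2
    rw [Nat.even_add] at e2
    exact e2.mpr (even_two_mul _)
  refine ⟨fun i => if i = 0 ∨ i = 1 then C₁ else if i = 2 ∨ i = 3 then C₂ else symmDiff C₁ C₂,
    fun i v => ?_, fun e => ?_⟩
  · dsimp only
    split_ifs
    · exact h1 v
    · exact h2 v
    · exact h3 v
  · have he : e ∈ C₁ ∪ C₂ := by rw [hu]; exact mem_univ _
    rw [mem_union] at he
    have aux : ∀ (p q : Prop) [Decidable p] [Decidable q], p ∨ q →
        (univ.filter (fun i : Fin 6 => (if i = 0 ∨ i = 1 then p else if i = 2 ∨ i = 3 then q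
          else (p ∧ ¬ q) ∨ (q ∧ ¬ p)))).card = 4 := by
      intro p q _ _ hpq
      by_cases hp : p
      · by_cases hq : q
        · simp only [hp, hq]; decide
        · simp only [hp, hq]; decide
      · have hq : q := hpq.resolve_left hp
        simp only [hp, hq]; decide
    rw [← aux (e ∈ C₁) (e ∈ C₂) he]
    congr 1
    ext i
    simp only [mem_filter, mem_univ, true_and]
    split_ifs
    · exact Iff.rfl
    · exact Iff.rfl
    · exact mem_symmDiff

end Pool.Agent.V11177.EC
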