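import Pool.Agent.V11177.EC.Main

set_option autoImplicit false

/-!
The gluing system for unions of two even subgraphs (nowhere-zero 4-flows).
-/

namespace Pool.Agent.V11177.EC

open Finset

/-- the value `x` passes the test `i` unless `i = x` -/
def ct (i x : Fin 3) : ZMod 2 := if i = x then 0 else 1

theorem ct_inv : ∀ x y w : Fin 3, (∀ i, ct i x + ct i y + ct i w = 0) →
    x ≠ y ∧ x ≠ w ∧ y ≠ w := by decide

theorem perm2 : ∀ x y : Fin 3, ∃ σ : Equiv.Perm (Fin 3), σ x = y := by decide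

theorem perm3 : ∀ x y w x' y' w' : Fin 3, x ≠ y → x ≠ w → y ≠ w → x' ≠ y' → x' ≠ w' → y' ≠ w' →
    ∃ σ : Equiv.Perm (Fin 3), σ x = x' ∧ σ y = y' ∧ σ w = w' := by
  decide +kernel

/-- the system -/
def two : Sys (Fin 3) (Fin 3) where
  c := ct
  Γ := {γ | ∃ σ : Equiv.Perm (Fin 3), ∀ x, γ x = σ x}
  act := by
    rintro γ ⟨σ, hσ⟩ i
    refine ⟨σ.symm i, fun x => ?_⟩
    unfold ct
    rw [hσ]
    simp only [Equiv.symm_apply_eq]
  s2 := by
    intro x y h
    have := h x
    unfold ct at this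
    by_contra hne
    simp [hne] at this
  t0 := ⟨id, Equiv.refl _, fun _ => rfl⟩
  t2 := by
    intro x y
    obtain ⟨σ, h⟩ := perm2 x y
    exact ⟨σ, ⟨σ, fun _ => rfl⟩, h⟩
  t3 := by
    intro x y w x' y' w' h h'
    obtain ⟨a1, a2, a3⟩ := ct_inv x y w h
    obtain ⟨b1, b2, b3⟩ := ct_inv x' y' w' h'
    obtain ⟨σ, h1, h2, h3⟩ := perm3 x y w x' y' w' a1 a2 a3 b1 b2 b3
    exact ⟨σ, ⟨σ, fun _ => rfl⟩, h1, h2, h3⟩

variable {V E : Type} [Fintype V] [Fintype E]

open Classical in
/-- two even subgraphs with union everything -/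
def Two (s t : E → V) : Prop := ∃ C₁ C₂ : Finset E,
  (∀ v, Even (∑ e ∈ C₁, ((if s e = v then 1 else 0) + (if t e = v then 1 else 0)))) ∧
  (∀ v, Even (∑ e ∈ C₂, ((if s e = v then 1 else 0) + (if t e = v then 1 else 0)))) ∧
  C₁ ∪ C₂ = univ

omit [Fintype V] in
open Classical in
theorem two_iff (s t : E → V) : (∃ f, Flow two s t f) ↔ Two s t := by
  have key : ∀ (f : E → Fin 3) (i : Fin 3) (v : V), (∑ e, two.c i (f e) * inc (s e) (t e) v = 0 ↔
      Even (∑ e ∈ univ.filter (fun e => i ≠ f e),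
        ((if s e = v then 1 else 0) + (if t e = v then 1 else 0)))) := by
    intro f i v
    rw [← ZMod.natCast_eq_zero_iff_even, sum_filter]
    push_cast
    have : ∀ e, two.c i (f e) * inc (s e) (t e) v = if i ≠ f e then
        ((if s e = v then 1 else 0) + (if t e = v then 1 else 0) : ZMod 2) else 0 := by
      intro e
      show ct i (f e) * inc (s e) (t e) v = _
      unfold ct inc
      by_cases h : i = f e <;> simp [h]
    rw [sum_congr rfl fun e _ => this e]
  constructor
  · rintro ⟨f, hf⟩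
    refine ⟨univ.filter (fun e => 0 ≠ f e), univ.filter (fun e => 1 ≠ f e),
      fun v => (key f 0 v).mp (hf v 0), fun v => (key f 1 v).mp (hf v 1), ?_⟩
    ext e
    simp only [mem_union, mem_filter, mem_univ, true_and, iff_true]
    by_contra hcon
    push Not at hcon
    exact absurd (hcon.1.trans hcon.2.symm) (by decide)
  · rintro ⟨C₁, C₂, h1, h2, hu⟩
    have h3 : ∀ v, Even (∑ e ∈ symmDiff C₁ C₂,
        ((if s e = v then 1 else 0) + (if t e = v then 1 else 0))) := by
      intro v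
      have e1 : ∑ e ∈ symmDiff C₁ C₂, ((if s e = v then 1 else 0) + (if t e = v then 1 else 0)) +
          2 * ∑ e ∈ C₁ ∩ C₂, ((if s e = v then 1 else 0) + (if t e = v then 1 else 0)) =
          ∑ e ∈ C₁, ((if s e = v then 1 else 0) + (if t e = v then 1 else 0)) +
          ∑ e ∈ C₂, ((if s e = v then 1 else 0) + (if t e = v then 1 else 0)) := by
        rw [symmDiff_def, sup_eq_union, sum_union disjoint_sdiff_sdiff,
          ← sum_inter_add_sum_sdiff C₁ C₂, ← sum_inter_add_sum_sdiff C₂ C₁, inter_comm C₂ C₁]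
        ring
      have e2 := (h1 v).add (h2 v)
      rw [← e1] at e2
      rw [Nat.even_add] at e2
      exact e2.mpr (even_two_mul _)
    have hmem : ∀ e, e ∈ C₁ ∨ e ∈ C₂ := fun e => by
      rw [← mem_union, hu]; exact mem_univ _
    refine ⟨fun e => if e ∈ C₁ then (if e ∈ C₂ then 2 else 1) else 0, fun v i => ?_⟩
    rw [key]
    have h0 : ∀ i : Fin 3, (univ.filter fun e =>
        i ≠ if e ∈ C₁ then (if e ∈ C₂ then 2 else 1) else 0) =
        if i = 0 then C₁ else if i = 1 then C₂ else symmDiff C₁ C₂ := by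
      intro i
      ext e
      have := hmem e
      by_cases a : e ∈ C₁ <;> by_cases b : e ∈ C₂ <;> fin_cases i <;>
        simp_all [mem_symmDiff]
    rw [h0]
    split_ifs
    · exact h1 v
    · exact h2 v
    · exact h3 v

/-- gluing for unions of two even subgraphs -/
theorem two_dec (P : (E → V) → (E → V) → Prop)
    (hP : ∀ s t, P s t → (∀ Z, cutn s t Z ≠ 1) → Two s t)
    (s t : E → V) (h : Dec P s t) (hb : ∀ Z, cutn s t Z ≠ 1) : Two s t :=
  (two_iff s t).mp (dec_flow two P (fun s t h1 h2 => (two_iff s t).mpr (hP s t h1 h2)) s t h hb)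

end Pool.Agent.V11177.EC
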