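import Pool.Agent.V11177.EC.Two
import Pool.Agent.V11177.EC.CW5
import Pool.Agent.V11177.EC.PW5
import Pool.Agent.TH362.TF.Main
import Pool.Agent.TH362.TF.Multi
import Pool.Agent.TH362.TF.Contr
import Pool.Agent.TH362.TF.Cyc
import Pool.Agent.TH499.TF.Minor

set_option autoImplicit false

/-!
Basic classes of graphs that are unions of two even subgraphs, and the gluing theorem.

The graph has a Petersen minor (`Pool.Agent.TH412.PF.HasPetersenMinor`): there are disjoint connected
sets of vertices, one for each two-element subset of `{0, 1, 2, 3, 4}`, such that the sets of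
disjoint subsets are joined by an edge.
-/

namespace Pool.Agent.V11177.EC

open Finset
open Pool.Agent.TH412.PF (HasPetersenMinor Conn Lk)

variable {V E : Type}

/-- the carving width is at most five: some binary tree `T` whose leaves are labelled bijectively by
the vertices is such that for each subtree at most five edges leave the set of its leaves -/
def CarvingFive [Fintype E] (s t : E → V) : Prop :=
  ∃ T : Pool.Agent.TH412.PF.Tr V, T.set = Set.univ ∧ T.Nodup ∧ T.Width s t 5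

/-- the pathwidth is at most five: there are vertex sets `X 0, X 1, ...` with at most six elements
such that every edge has both ends in one of them and every vertex lies in an interval of them -/
def PathFive (s t : E → V) : Prop :=
  ∃ X : ℕ → Finset V, (∀ e, ∃ i, s e ∈ X i ∧ t e ∈ X i) ∧
    (∀ i j k, i ≤ j → j ≤ k → ∀ v, v ∈ X i → v ∈ X k → v ∈ X j) ∧ ∀ i, (X i).card ≤ 6

/-- tree decomposition of the graph, with bags `bag i` for the nodes `i` of the tree `T` -/
def IsTreeDec {ι : Type} (s t : E → V) (T : SimpleGraph ι) (bag : ι → Finset V) : Prop :=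
  T.IsTree ∧ (∀ v, ∃ i, v ∈ bag i) ∧ (∀ e, ∃ i, s e ∈ bag i ∧ t e ∈ bag i) ∧
    ∀ (i j : ι) (p : T.Walk i j), p.IsPath → ∀ k ∈ p.support, ∀ v, v ∈ bag i → v ∈ bag j →
      v ∈ bag k

/-- the treewidth is at most four -/
def TreeFour (s t : E → V) : Prop :=
  ∃ (ι : Type) (_ : Fintype ι) (T : SimpleGraph ι) (bag : ι → Finset V),
    IsTreeDec s t T bag ∧ ∀ i, (bag i).card ≤ 5

/-- at most sixteen vertices have odd degree and no component can be contracted to the Petersen
graph (see `Pool.Agent.TH362.Multi.ContractsToPetersen`) -/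
def OddSixteen (s t : E → V) : Prop :=
  {v | Odd (Pool.Agent.TH362.Multi.degree s t Set.univ v)}.ncard ≤ 16 ∧
    ¬ Pool.Agent.TH362.Multi.ContractsToPetersen s t

/-- the basic graphs -/
def Basic2 [Fintype E] (s t : E → V) : Prop :=
  (¬ HasPetersenMinor s t ∧ (CarvingFive s t ∨ PathFive s t ∨ TreeFour s t)) ∨ OddSixteen s t ∨
    Two s t

theorem cutn_card2 [Fintype E] (s t : E → V) (Z : Set V) (F : Finset E)
    (hF : ∀ e, e ∈ F ↔ ¬ (s e ∈ Z ↔ t e ∈ Z)) : cutn s t Z = F.card := by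
  unfold cutn
  rw [← Set.ncard_coe_finset]
  congr 1
  ext e
  rw [mem_cs, mem_coe, hF]

/-- an isthmus gives a cut with one edge -/
theorem isthmus_cut (s t : E → V) (R : V → V → Prop) (e : E)
    (hR : ∀ e', e' ≠ e → R (s e') (t e') ∧ R (t e') (s e'))
    (h : ¬ Relation.ReflTransGen R (s e) (t e)) : ∃ Z, cutn s t Z = 1 := by
  refine ⟨{x | Relation.ReflTransGen R (s e) x}, Set.ncard_eq_one.mpr ⟨e, ?_⟩⟩
  ext e'
  rw [mem_cs, Set.mem_singleton_iff]
  constructor
  · intro h1
    by_contra hne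
    apply h1
    exact ⟨fun h2 => Relation.ReflTransGen.tail h2 (hR e' hne).1,
      fun h2 => Relation.ReflTransGen.tail h2 (hR e' hne).2⟩
  · rintro rfl h1
    exact h (h1.mp Relation.ReflTransGen.refl)

open Classical in
theorem minor_of_pm [Fintype V] [Fintype E] (s t : E → V) (h : TH499.TF.PM s t) :
    HasPetersenMinor s t := by
  obtain ⟨S, h1, h2, h3⟩ := h
  have hne : ∀ i, (S i).Nonempty := by
    intro i
    obtain ⟨j, hj⟩ : ∃ j : {s : Finset (Fin 5) // s.card = 2}, Disjoint i.1 j.1 := by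
      revert i; decide
    obtain ⟨e, x, y, hx, _⟩ := h3 i j hj
    exact ⟨x, hx⟩
  refine ⟨fun a => if h : a.card = 2 then (S ⟨a, h⟩ : Set V) else ∅, ?_, ?_⟩
  · intro a ha
    simp only [ha, dite_true]
    refine ⟨by obtain ⟨x, hx⟩ := hne ⟨a, ha⟩; exact ⟨x, hx⟩, fun Z hZ hZ1 hZ2 => ?_⟩
    obtain ⟨e, x, y, hx, hy, hyA, hj⟩ := h1 ⟨a, ha⟩ ((S ⟨a, ha⟩).filter (fun v => v ∈ Z))
      (filter_subset _ _) (by
        obtain ⟨x, hx⟩ := hZ1
        exact ⟨x, mem_filter.mpr ⟨hZ hx, hx⟩⟩) (by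
        intro heq
        apply hZ2
        apply Set.Subset.antisymm hZ
        intro x hx
        have : x ∈ (S ⟨a, ha⟩).filter (fun v => v ∈ Z) := by rw [heq]; exact hx
        exact (mem_filter.mp this).2)
    have hxZ := (mem_filter.mp hx).2
    have hyZ : y ∈ (S ⟨a, ha⟩ : Set V) \ Z := ⟨hy, fun h => hyA (mem_filter.mpr ⟨hy, h⟩)⟩
    rcases hj with ⟨rfl, rfl⟩ | ⟨rfl, rfl⟩
    · exact ⟨e, Or.inl ⟨hxZ, hyZ⟩⟩
    · exact ⟨e, Or.inr ⟨hxZ, hyZ⟩⟩
  · intro a b ha hb
    simp only [ha, hb, dite_true]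
    refine ⟨fun hab => ?_, fun hab => ?_⟩
    · exact disjoint_coe.mpr (h2 _ _ (fun h => hab (congrArg Subtype.val h)))
    · obtain ⟨e, x, y, hx, hy, hj⟩ := h3 ⟨a, ha⟩ ⟨b, hb⟩ hab
      rcases hj with ⟨rfl, rfl⟩ | ⟨rfl, rfl⟩
      · exact ⟨e, Or.inl ⟨hx, hy⟩⟩
      · exact ⟨e, Or.inr ⟨hx, hy⟩⟩

open Classical in
theorem minor_of_p5 (s t : E → V) (h : Pool.Agent.TH395.P5.HasPetersenMinor s t) :
    HasPetersenMinor s t := by
  obtain ⟨B, h1, h2, h3, h4⟩ := h
  refine ⟨fun a => if h : a.card = 2 then B ⟨a, h⟩ else ∅, ?_, ?_⟩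
  · intro a ha
    simp only [ha, dite_true]
    refine ⟨h1 _, fun Z hZ hZ1 hZ2 => ?_⟩
    obtain ⟨x, hx⟩ := hZ1
    obtain ⟨y, hyB, hyZ⟩ : ∃ y, y ∈ B ⟨a, ha⟩ ∧ y ∉ Z := by
      by_contra hcon
      push Not at hcon
      exact hZ2 (Set.Subset.antisymm hZ hcon)
    have hw := h3 ⟨a, ha⟩ x (hZ hx) y hyB
    by_contra hno
    have : y ∈ Z := by
      clear hyZ
      induction hw with
      | refl => exact hx
      | tail _ hst ih =>
        obtain ⟨hb, hc, e, he⟩ := hst
        have hbZ := ih hb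
        by_contra hcZ
        apply hno
        rcases he with ⟨rfl, rfl⟩ | ⟨rfl, rfl⟩
        · exact ⟨e, Or.inl ⟨hbZ, hc, hcZ⟩⟩
        · exact ⟨e, Or.inr ⟨hbZ, hc, hcZ⟩⟩
    exact hyZ this
  · intro a b ha hb
    simp only [ha, hb, dite_true]
    refine ⟨fun hab => h2 _ _ (fun h => hab (congrArg Subtype.val h)), fun hab => ?_⟩
    obtain ⟨e, he⟩ := h4 ⟨a, ha⟩ ⟨b, hb⟩ hab
    rcases he with ⟨x, y⟩ | ⟨x, y⟩
    · exact ⟨e, Or.inl ⟨x, y⟩⟩
    · exact ⟨e, Or.inr ⟨y, x⟩⟩

open Classical in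
theorem even_of2 [Fintype E] (s t : E → V) (C : Finset E) (v : V)
    (h : Even ((C.filter (fun e => s e = v)).card + (C.filter (fun e => t e = v)).card)) :
    Even (∑ e ∈ C, ((if s e = v then 1 else 0) + (if t e = v then 1 else 0))) := by
  rwa [sum_add_distrib, ← card_filter, ← card_filter]

open Classical in
theorem two_of_fn [Fintype E] (s t : E → V) (x y : E → ZMod 2)
    (hx : ∀ v, ∑ e, x e * ((if s e = v then 1 else 0) + (if t e = v then 1 else 0)) = 0)
    (hy : ∀ v, ∑ e, y e * ((if s e = v then 1 else 0) + (if t e = v then 1 else 0)) = 0)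
    (hxy : ∀ e, x e ≠ 0 ∨ y e ≠ 0) : Two s t := by
  have key : ∀ (x : E → ZMod 2) (v : V),
      ∑ e, x e * ((if s e = v then 1 else 0) + (if t e = v then 1 else 0)) = 0 →
      Even (∑ e ∈ univ.filter (fun e => x e ≠ 0),
        ((if s e = v then 1 else 0) + (if t e = v then 1 else 0))) := by
    intro x v h
    rw [← ZMod.natCast_eq_zero_iff_even, sum_filter]
    push_cast
    have h01 : ∀ a : ZMod 2, a ≠ 0 → a = 1 := by decide
    refine Eq.trans (sum_congr rfl fun e _ => ?_) h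
    by_cases h1 : x e = 0
    · simp [h1]
    · rw [if_pos h1, h01 _ h1, one_mul]
  refine ⟨_, _, fun v => key x v (hx v), fun v => key y v (hy v), ?_⟩
  ext e
  simp only [mem_union, mem_filter, mem_univ, true_and, iff_true]
  exact hxy e

open Classical in
theorem basic_two [Fintype V] [Fintype E] (s t : E → V) (h : Basic2 s t)
    (hb : ∀ Z, cutn s t Z ≠ 1) : Two s t := by
  rcases h with ⟨hP, h | h | h⟩ | h | h
  · obtain ⟨⟨x, y, hx, hy, hxy⟩, _⟩ := cw5 V E s t (fun Z => by
        rw [← cutn_card2 s t Z _ (fun e => by unfold Pool.Agent.TH412.PF.cut; simp)]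
        exact hb Z) hP h
    refine two_of_fn s t x y (fun v => ?_) (fun v => ?_) hxy
    · refine Eq.trans (sum_congr rfl fun e _ => mul_comm _ _) (hx v)
    · refine Eq.trans (sum_congr rfl fun e _ => mul_comm _ _) (hy v)
  · obtain ⟨X, h1, h2, h3⟩ := h
    obtain ⟨C₁, C₂, a1, a2, a3⟩ := pw5 V E s t X
      ⟨h1, fun i j k hij hjk v hv => by
        rw [mem_inter] at hv
        exact h2 i j k hij hjk v hv.1 hv.2, h3⟩
      (fun e he => by
        obtain ⟨Z, hZ⟩ := isthmus_cut s t _ e (fun e' hne =>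
          ⟨⟨e', hne, Or.inl ⟨rfl, rfl⟩⟩, ⟨e', hne, Or.inr ⟨rfl, rfl⟩⟩⟩) he
        exact hb Z hZ)
      (fun h => hP (minor_of_p5 s t h))
    exact ⟨C₁, C₂, fun v => even_of2 s t _ v (a1 v), fun v => even_of2 s t _ v (a2 v), a3⟩
  · obtain ⟨ι, _, T, bag, ⟨t1, _, t2, t3⟩, t4⟩ := h
    have hTD : TH499.TF.HasTD 5 s t := TH499.TF.HasTD.of_tree t1 t3 t2 t4
    have hcut : ∀ Y, (TH499.TF.dlt s t Y).card ≠ 1 := by
      intro Y hY
      apply hb (Y : Set V)
      rw [cutn_card2 s t (Y : Set V) (TH499.TF.dlt s t Y) (fun e => by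
        rw [TH499.TF.mem_dlt]; simp)]
      exact hY
    obtain ⟨f, hf, hd⟩ := TH499.TF.cls_nz _ s t rfl ⟨hTD, fun h => hP (minor_of_pm s t h)⟩ hcut
    refine two_of_fn s t (fun e => (f e).1) (fun e => (f e).2) (fun v => ?_) (fun v => ?_)
      (fun e => ?_)
    · have h := congrArg Prod.fst (hd v)
      unfold TH499.TF.dv TH499.TF.jn at h
      rw [Prod.fst_sum] at h
      refine Eq.trans (sum_congr rfl fun e _ => ?_) h
      split_ifs <;> simp [mul_add]
    · have h := congrArg Prod.snd (hd v)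
      unfold TH499.TF.dv TH499.TF.jn at h
      rw [Prod.snd_sum] at h
      refine Eq.trans (sum_congr rfl fun e _ => ?_) h
      split_ifs <;> simp [mul_add]
    · by_contra hcon
      push Not at hcon
      exact hf e (Prod.ext hcon.1 hcon.2)
  · have h1 := TH362.TF.n1_of s t (fun e he => by
      obtain ⟨Z, hZ⟩ := isthmus_cut s t _ e (fun e' hne =>
        ⟨⟨e', hne, Or.inl ⟨rfl, rfl⟩⟩, ⟨e', hne, Or.inr ⟨rfl, rfl⟩⟩⟩) he
      exact hb Z hZ)
    rcases TH362.TF.main16 s t Finset.univ h1 (by rw [TH362.TF.odd_card]; exact h.1) with h' | h'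
    · obtain ⟨C₁, C₂, a1, a2, a3⟩ := TH362.TF.two_cycles s t h'
      refine ⟨univ.filter (fun e => e ∈ C₁), univ.filter (fun e => e ∈ C₂), fun v => ?_, fun v => ?_,
        ?_⟩
      · refine even_of2 s t _ v ?_
        have := a1 v
        unfold Pool.Agent.TH362.Multi.degree at this
        rw [Set.ncard_eq_toFinset_card', Set.ncard_eq_toFinset_card'] at this
        convert this using 3 <;> (ext e; simp)
      · refine even_of2 s t _ v ?_
        have := a2 v
        unfold Pool.Agent.TH362.Multi.degree at this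
        rw [Set.ncard_eq_toFinset_card', Set.ncard_eq_toFinset_card'] at this
        convert this using 3 <;> (ext e; simp)
      · ext e
        have : e ∈ C₁ ∪ C₂ := by rw [a3]; exact Set.mem_univ _
        simpa using this
    · exact absurd (TH362.TF.contracts s t h1 h') h.2
  · exact h

/-- gluing -/
theorem glue_two [Fintype V] [Fintype E] (s t : E → V)
    (hb : ∀ Z : Set V, cutn s t Z ≠ 1) (h : Dec Basic2 s t) : Two s t :=
  two_dec Basic2 (fun s t h1 h2 => basic_two s t h1 h2) s t h hb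

open Classical in
theorem nonblock [Fintype E] (s t : E → V) (h : Two s t) (r : ℕ)
    (A : Matrix (Fin r) E (ZMod 2)) (hA : Pool.Agent.TH412.PF.Represents s t A) :
    ∃ B : Matrix (Fin 2) (Fin r) (ZMod 2), ∀ e, ∃ j, ∑ i, B j i * A i e ≠ 0 := by
  obtain ⟨C₁, C₂, h1, h2, h3⟩ := h
  have key : ∀ C : Finset E,
      (∀ v, Even (∑ e ∈ C, ((if s e = v then 1 else 0) + (if t e = v then 1 else 0)))) →
      Pool.Agent.TH412.PF.IsCycle s t (fun e => if e ∈ C then 1 else 0) := by
    intro C hC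
    refine Pool.Agent.TH412.PF.mem_cycleSpace s t _ fun v => ?_
    have h := hC v
    rw [← ZMod.natCast_eq_zero_iff_even] at h
    unfold Pool.Agent.TH412.PF.bd
    push_cast at h
    rw [← sum_filter_add_sum_filter_not univ (fun e => e ∈ C)]
    rw [sum_eq_zero (s := univ.filter (fun e => ¬ e ∈ C)) (fun e he => by
      dsimp only
      rw [if_neg (mem_filter.mp he).2, zero_mul]), add_zero]
    have : univ.filter (fun e => e ∈ C) = C := by ext e; simp
    rw [this]
    refine Eq.trans (sum_congr rfl fun e he => ?_) h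
    dsimp only
    rw [if_pos he, one_mul]
  obtain ⟨u, hu⟩ := (hA _).1 (key C₁ h1)
  obtain ⟨w, hw⟩ := (hA _).1 (key C₂ h2)
  refine ⟨![u, w], fun e => ?_⟩
  have he : e ∈ C₁ ∪ C₂ := by rw [h3]; exact mem_univ _
  rcases mem_union.mp he with h4 | h4
  · refine ⟨0, ?_⟩
    have := hu e
    simp only [h4, if_true] at this
    show ∑ i, u i * A i e ≠ 0
    rw [← this]
    exact one_ne_zero
  · refine ⟨1, ?_⟩
    have := hw e
    simp only [h4, if_true] at this
    show ∑ i, w i * A i e ≠ 0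
    rw [← this]
    exact one_ne_zero

end Pool.Agent.V11177.EC
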